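import Mathlib
import Pool.Agent.Work.MP_2dba45_nt.Sv.Wt
import Pool.Agent.Work.MP_2dba45_nt.Sv.Nsq

set_option autoImplicit false

namespace Pool.Agent.Work.MP_73869e_nt.SK

open Finset Pool.Agent.Work.MP_2dba45_nt.BilDef Pool.Agent.Work.MP_2dba45_nt.Sv

/-- `n ^ 2 + g ^ 2` has at most two prime factors, all at least `N ^ (9 / 40)` -/
def GoodK (N g n : ℕ) : Prop :=
  ArithmeticFunction.cardFactors (n ^ 2 + g ^ 2) ≤ 2 ∧
    ∀ p : ℕ, p.Prime → p ∣ n ^ 2 + g ^ 2 → pw N zExp ≤ p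

/-- exceptional integers -/
def BadK (N g n : ℕ) : Prop :=
  (∃ p : ℕ, p.Prime ∧ p ^ 2 ∣ n ^ 2 + g ^ 2) ∧ ∀ p : ℕ, p.Prime → p ∣ n ^ 2 + g ^ 2 → pw N zExp ≤ p

open Classical in
theorem wt_ineqK : ∃ N₀ : ℕ, ∀ N : ℕ, N₀ ≤ N → ∀ (k : ℕ) (δ : ℝ) (g n : ℕ), 1 ≤ k → 0 < δ →
    δ ≤ 1 / 10 → 1 ≤ g → g ≤ N → n ∈ Ioc N (2 * N) →
    (∀ p : ℕ, p.Prime → p ∣ n ^ 2 + g ^ 2 → pw N δ ≤ p) →
    WW (PQ (pw N δ) N) (cost (1200 * k) N) (pw N zExp) (pw N yExp) (1298 * k) (wt k) lamb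
        (fun T => if T ⊆ (PQ (pw N δ) N).filter (fun p => p ∣ n ^ 2 + g ^ 2) then 1 else 0) ≤
      (if GoodK N g n then 1 else 0) +
        (if BadK N g n then 1 else 0) := by
  have htend : Filter.Tendsto (fun N : ℕ => Real.log (N : ℝ)) Filter.atTop Filter.atTop :=
    Real.tendsto_log_atTop.comp tendsto_natCast_atTop_atTop
  obtain ⟨N₁, hN₁⟩ := Filter.eventually_atTop.1
    (htend.eventually_ge_atTop (1200 * Real.log 5))
  refine ⟨max N₁ 2, fun N hN k δ g n hk hδ hδ1 hg hgN hn hR => ?_⟩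
  have hN2 : 2 ≤ N := (le_max_right _ _).trans hN
  have hlog := hN₁ N ((le_max_left _ _).trans hN)
  rw [Finset.mem_Ioc] at hn
  set P := PQ (pw N δ) N with hP
  set B := P.filter (fun p => p ∣ n ^ 2 + g ^ 2) with hB
  set z := pw N zExp with hz
  set y := pw N yExp with hy
  have hzN : z ≤ N := wt_pw_le N hN2 _ (by unfold zExp; norm_num)
  have hyN : y ≤ N := wt_pw_le N hN2 _ (by unfold yExp; norm_num)
  have hPmem : ∀ p, p ∈ P ↔ (pw N δ ≤ p ∧ p < N) ∧ p.Prime := by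
    intro p
    rw [hP]
    unfold PQ
    rw [Finset.mem_filter, Finset.mem_Ico]
  have hlam : (0 : ℝ) ≤ lamb := by unfold lamb; norm_num
  have h1 := wt_WW_le P (cost (1200 * k) N) z y (1298 * k) (wt k) lamb hlam B
    (fun p hp hpy => wt_weight_nonneg N k p hN2 hk ((hPmem p).1 hp).2.pos hpy)
  have hbound : WW P (cost (1200 * k) N) z y (1298 * k) (wt k) lamb
      (fun T => if T ⊆ B then 1 else 0) ≤
      (if GoodK N g n then (1 : ℝ) else 0) +
        (if BadK N g n then 1 else 0) := by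
    refine h1.trans ?_
    have hR1 : (0 : ℝ) ≤ (if GoodK N g n then (1 : ℝ) else 0) := by
      split_ifs <;> norm_num
    have hR2 : (0 : ℝ) ≤ (if BadK N g n then (1 : ℝ) else 0) := by
      split_ifs <;> norm_num
    by_cases hI : ∀ p ∈ P, p < z → p ∉ B
    · rw [if_pos hI, one_mul]
      have hsumnn : 0 ≤ ∑ p ∈ P.filter (fun p => z ≤ p ∧ p < y),
          (if p ∈ B then wt k (cost (1200 * k) N p) else 0) := by
        refine Finset.sum_nonneg fun p hp => ?_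
        rw [Finset.mem_filter] at hp
        split_ifs
        · exact wt_weight_nonneg N k p hN2 hk ((hPmem p).1 hp.1).2.pos hp.2.2
        · exact le_rfl
      have hfac : ∀ p : ℕ, p.Prime → p ∣ n ^ 2 + g ^ 2 → z ≤ p := by
        intro p hp hdvd
        by_contra hlt
        push Not at hlt
        have hpR := hR p hp hdvd
        have hpP : p ∈ P := (hPmem p).2 ⟨⟨hpR, by omega⟩, hp⟩
        exact hI p hpP hlt (by rw [hB, Finset.mem_filter]; exact ⟨hpP, hdvd⟩)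
      by_cases hc : ArithmeticFunction.cardFactors (n ^ 2 + g ^ 2) ≤ 2
      · have hG : GoodK N g n := ⟨hc, hfac⟩
        rw [if_pos hG]
        nlinarith [mul_nonneg hlam hsumnn]
      by_cases hbad : BadK N g n
      · rw [if_pos hbad]
        nlinarith [mul_nonneg hlam hsumnn]
      have hG : ¬ GoodK N g n := fun h => hc h.1
      rw [if_neg hG, if_neg hbad]
      have hsq : Squarefree (n ^ 2 + g ^ 2) := by
        rw [Nat.squarefree_iff_prime_squarefree]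
        intro p hp hpp
        apply hbad
        exact ⟨⟨p, hp, by rw [sq]; exact hpp⟩, hfac⟩
      have hcard : 3 ≤ #(n ^ 2 + g ^ 2).primeFactors := by
        have h4 : ArithmeticFunction.cardDistinctFactors (n ^ 2 + g ^ 2)
            = ArithmeticFunction.cardFactors (n ^ 2 + g ^ 2) :=
          (ArithmeticFunction.cardDistinctFactors_eq_cardFactors_iff_squarefree
            (by positivity)).2 hsq
        have h5 : ArithmeticFunction.cardDistinctFactors (n ^ 2 + g ^ 2)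
            = #(n ^ 2 + g ^ 2).primeFactors := rfl
        omega
      have hm : (((n ^ 2 + g ^ 2 : ℕ)) : ℝ) ≤ 5 * (N : ℝ) ^ 2 := by
        have h6 : (n : ℝ) ≤ 2 * N := by exact_mod_cast hn.2
        have h7 : (1 : ℝ) ≤ N := by exact_mod_cast (by omega : 1 ≤ N)
        have h9 : (g : ℝ) ≤ N := by exact_mod_cast hgN
        push_cast
        nlinarith [Nat.cast_nonneg (α := ℝ) n, Nat.cast_nonneg (α := ℝ) g]
      have hcore := wt_core N hN2 hlog k (n ^ 2 + g ^ 2) hk (by positivity) hm hfac hsq hcard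
      have hsumeq : ∑ p ∈ (n ^ 2 + g ^ 2).primeFactors.filter (fun p => p < pw N yExp),
          wt k (cost (1200 * k) N p)
          ≤ ∑ p ∈ P.filter (fun p => z ≤ p ∧ p < y),
            (if p ∈ B then wt k (cost (1200 * k) N p) else 0) := by
        rw [← Finset.sum_filter]
        refine Finset.sum_le_sum_of_subset_of_nonneg ?_ ?_
        · intro p hp
          rw [Finset.mem_filter, Nat.mem_primeFactors] at hp
          obtain ⟨⟨hp1, hp2, _⟩, hp3⟩ := hp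
          have hpR := hR p hp1 hp2
          have hpP : p ∈ P := (hPmem p).2 ⟨⟨hpR, lt_of_lt_of_le hp3 hyN⟩, hp1⟩
          rw [Finset.mem_filter, Finset.mem_filter]
          exact ⟨⟨hpP, hfac p hp1 hp2, hp3⟩, by rw [hB, Finset.mem_filter]; exact ⟨hpP, hp2⟩⟩
        · intro p hp _
          rw [Finset.mem_filter, Finset.mem_filter] at hp
          exact wt_weight_nonneg N k p hN2 hk ((hPmem p).1 hp.1.1).2.pos hp.1.2.2
      have hfin : lamb * (1196 / 1199) = 1 := by unfold lamb; norm_num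
      have h8 := mul_le_mul_of_nonneg_left (hcore.trans hsumeq) hlam
      linarith
    · rw [if_neg hI, zero_mul]
      linarith
  exact hbound


theorem nsq_primeK (N g p : ℕ) (hg : 1 ≤ g) (hgp : g < p) (hp : p.Prime) (h2 : 3 ≤ p) :
    (#((Ioc N (2 * N)).filter (fun n => p ^ 2 ∣ n ^ 2 + g ^ 2)) : ℝ) ≤ 2 * ((N : ℝ) / (p ^ 2 : ℕ) + 1) := by
  classical
  have hpp : 0 < p ^ 2 := pow_pos hp.pos 2
  rcases ((Ioc N (2 * N)).filter (fun n => p ^ 2 ∣ n ^ 2 + g ^ 2)).eq_empty_or_nonempty with he | ⟨m, hm⟩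
  · rw [he, Finset.card_empty, Nat.cast_zero]
    positivity
  rw [Finset.mem_filter] at hm
  set v := p ^ 2 - m % p ^ 2 with hv
  have hvm : v + m ≡ 0 [MOD p ^ 2] := by
    have h3 : m % p ^ 2 < p ^ 2 := Nat.mod_lt _ hpp
    have h4 : v + m ≡ v + m % p ^ 2 [MOD p ^ 2] := Nat.ModEq.add_left _ (Nat.mod_modEq m _).symm
    have h5 : v + m % p ^ 2 = p ^ 2 := by omega
    rw [h5] at h4
    exact h4.trans (by simp [Nat.ModEq])
  have hsub : (Ioc N (2 * N)).filter (fun n => p ^ 2 ∣ n ^ 2 + g ^ 2)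
      ⊆ (Ioc N (2 * N)).filter (fun n => n ≡ m [MOD p ^ 2])
        ∪ (Ioc N (2 * N)).filter (fun n => n ≡ v [MOD p ^ 2]) := by
    intro n hn
    rw [Finset.mem_filter] at hn
    rw [Finset.mem_union, Finset.mem_filter, Finset.mem_filter]
    have h6 : ((p ^ 2 : ℕ) : ℤ) ∣ ((n : ℤ) - m) * ((n : ℤ) + m) := by
      have e1 : ((n : ℤ) - m) * ((n : ℤ) + m) = ((n ^ 2 + g ^ 2 : ℕ) : ℤ) - ((m ^ 2 + g ^ 2 : ℕ) : ℤ) := by
        push_cast; ring
      rw [e1]
      exact dvd_sub (Int.natCast_dvd_natCast.2 hn.2) (Int.natCast_dvd_natCast.2 hm.2)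
    have hpI : Prime (p : ℤ) := Nat.prime_iff_prime_int.1 hp
    have hnot : ¬ ((p : ℤ) ∣ (n : ℤ) - m ∧ (p : ℤ) ∣ (n : ℤ) + m) := by
      rintro ⟨a1, a2⟩
      have a3 : (p : ℤ) ∣ 2 * n := by
        have := dvd_add a1 a2
        have e : (n : ℤ) - m + (n + m) = 2 * n := by ring
        rwa [e] at this
      rcases hpI.dvd_or_dvd a3 with a4 | a4
      · have a5 : p ∣ 2 := by exact_mod_cast a4
        have := Nat.le_of_dvd (by norm_num) a5
        omega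
      · have a5 : p ∣ n := by exact_mod_cast a4
        have a6 : p ∣ n ^ 2 + g ^ 2 := (dvd_pow_self p two_ne_zero).trans hn.2
        have a7 : p ∣ g ^ 2 := (Nat.dvd_add_right (a5.trans (dvd_pow_self n two_ne_zero))).1 a6
        have := Nat.le_of_dvd hg (hp.dvd_of_dvd_pow a7)
        omega
    by_cases hc : (p : ℤ) ∣ (n : ℤ) - m
    · left
      refine ⟨hn.1, ?_⟩
      have hcop : IsCoprime ((p ^ 2 : ℕ) : ℤ) ((n : ℤ) + m) := by
        push_cast
        refine IsCoprime.pow_left ?_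
        rw [Int.isCoprime_iff_gcd_eq_one, ← Int.isCoprime_iff_gcd_eq_one]
        exact (Prime.coprime_iff_not_dvd hpI).2 fun h => hnot ⟨hc, h⟩
      have h7 : ((p ^ 2 : ℕ) : ℤ) ∣ (n : ℤ) - m := hcop.dvd_of_dvd_mul_right h6
      exact ((Nat.modEq_iff_dvd).2 h7).symm
    · right
      refine ⟨hn.1, ?_⟩
      have hcop : IsCoprime ((p ^ 2 : ℕ) : ℤ) ((n : ℤ) - m) := by
        push_cast
        refine IsCoprime.pow_left ?_
        exact (Prime.coprime_iff_not_dvd hpI).2 hc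
      have h7 : ((p ^ 2 : ℕ) : ℤ) ∣ (n : ℤ) + m := hcop.dvd_of_dvd_mul_left h6
      have h8 : p ^ 2 ∣ n + m := by exact_mod_cast h7
      have h9 : n + m ≡ v + m [MOD p ^ 2] :=
        ((Nat.modEq_zero_iff_dvd).2 h8).trans hvm.symm
      exact Nat.ModEq.add_right_cancel' m h9
  have h10 := Finset.card_le_card hsub
  have h11 := h10.trans (Finset.card_union_le _ _)
  have h12 : (#((Ioc N (2 * N)).filter (fun n => p ^ 2 ∣ n ^ 2 + g ^ 2)) : ℝ)
      ≤ (#((Ioc N (2 * N)).filter (fun n => n ≡ m [MOD p ^ 2])) : ℝ)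
        + (#((Ioc N (2 * N)).filter (fun n => n ≡ v [MOD p ^ 2])) : ℝ) := by exact_mod_cast h11
  have h13 := nsq_class N (p ^ 2) m hpp
  have h14 := nsq_class N (p ^ 2) v hpp
  linarith

open Classical in
theorem nsqK : ∃ N₀ : ℕ, ∀ N : ℕ, N₀ ≤ N → ∀ g : ℕ, 1 ≤ g → (g : ℝ) ≤ (N : ℝ) ^ ((1 : ℝ) / 10) →
    (#((Ioc N (2 * N)).filter (fun n => BadK N g n)) : ℝ) ≤ (N : ℝ) ^ ((19 : ℝ) / 20) := by
  have ht : Filter.Tendsto (fun N : ℕ => (N : ℝ) ^ ((1 : ℝ) / 16)) Filter.atTop Filter.atTop :=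
    (tendsto_rpow_atTop (by norm_num)).comp tendsto_natCast_atTop_atTop
  have ht2 : Filter.Tendsto (fun N : ℕ => (N : ℝ) ^ zExp) Filter.atTop Filter.atTop :=
    (tendsto_rpow_atTop (by unfold zExp; norm_num)).comp tendsto_natCast_atTop_atTop
  obtain ⟨N₁, hN₁⟩ := Filter.eventually_atTop.1
    ((ht.eventually_ge_atTop 12).and (ht2.eventually_ge_atTop 3))
  refine ⟨max N₁ 2, fun N hN g hg hgN => ?_⟩
  have hN2 : 2 ≤ N := (le_max_right _ _).trans hN
  obtain ⟨h12, hz3⟩ := hN₁ N ((le_max_left _ _).trans hN)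
  have hN1 : (1 : ℝ) ≤ N := by exact_mod_cast (by omega : 1 ≤ N)
  have hN0 : (0 : ℝ) < N := by linarith
  set z := pw N zExp with hz
  have hzr : (N : ℝ) ^ zExp ≤ z := Nat.le_ceil _
  have hz3' : 3 ≤ z := by
    have : (3 : ℝ) ≤ z := hz3.trans hzr
    exact_mod_cast this
  have hN1' : (1 : ℝ) < N := by exact_mod_cast (by omega : 1 < N)
  have hgz : g < z := by
    have h1 : (N : ℝ) ^ ((1 : ℝ) / 10) < (N : ℝ) ^ zExp :=
      Real.rpow_lt_rpow_of_exponent_lt hN1' (by unfold zExp; norm_num)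
    have : (g : ℝ) < z := lt_of_le_of_lt hgN (lt_of_lt_of_le h1 hzr)
    exact_mod_cast this
  have hg2 : g ^ 2 ≤ N := by
    have h1 : (g : ℝ) ^ 2 ≤ N := by
      calc (g : ℝ) ^ 2 ≤ ((N : ℝ) ^ ((1 : ℝ) / 10)) ^ 2 :=
            pow_le_pow_left₀ (Nat.cast_nonneg g) hgN 2
        _ = (N : ℝ) ^ ((1 : ℝ) / 5) := by
            rw [← Real.rpow_natCast, ← Real.rpow_mul hN0.le]; norm_num
        _ ≤ (N : ℝ) ^ (1 : ℝ) := Real.rpow_le_rpow_of_exponent_le hN1 (by norm_num)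
        _ = N := Real.rpow_one _
    exact_mod_cast h1
  set A : ℝ := (N : ℝ) ^ ((71 : ℝ) / 80) with hA
  have hA1 : 1 ≤ A := Real.one_le_rpow hN1 (by norm_num)
  set Y := ⌊3 * A⌋₊ + 1 with hY
  have hcover : (Ioc N (2 * N)).filter (fun n => BadK N g n) ⊆
      ((Ico z Y).filter Nat.Prime).biUnion
        (fun p => (Ioc N (2 * N)).filter (fun n => p ^ 2 ∣ n ^ 2 + g ^ 2)) := by
    intro n hn
    rw [Finset.mem_filter] at hn
    obtain ⟨hnI, ⟨p, hp, hdvd⟩, hfac⟩ := hn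
    rw [Finset.mem_Ioc] at hnI
    rw [Finset.mem_biUnion]
    refine ⟨p, ?_, by rw [Finset.mem_filter, Finset.mem_Ioc]; exact ⟨hnI, hdvd⟩⟩
    rw [Finset.mem_filter, Finset.mem_Ico]
    have hpz : z ≤ p := hfac p hp ((dvd_pow_self p two_ne_zero).trans hdvd)
    refine ⟨⟨hpz, ?_⟩, hp⟩
    obtain ⟨k, hk⟩ := hdvd
    have hk1 : k ≠ 1 := by
      rintro rfl
      rw [mul_one] at hk
      have h1 : n < p := by
        by_contra hcon
        push Not at hcon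
        have : p ^ 2 ≤ n ^ 2 := Nat.pow_le_pow_left hcon 2
        have : 0 < g ^ 2 := by positivity
        omega
      have h2 : (n + 1) ^ 2 ≤ p ^ 2 := Nat.pow_le_pow_left h1 2
      rw [← hk] at h2
      nlinarith
    have hk0 : 0 < k := by
      rcases Nat.eq_zero_or_pos k with rfl | h
      · rw [mul_zero] at hk
        have : 0 < g ^ 2 := by positivity
        omega
      · exact h
    obtain ⟨q, hq, hqk⟩ := Nat.exists_prime_and_dvd hk1
    have hqz : z ≤ q := hfac q hq (by rw [hk]; exact hqk.mul_left _)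
    have h3 : p ^ 2 * z ≤ n ^ 2 + g ^ 2 := by
      rw [hk]
      exact Nat.mul_le_mul_left _ (hqz.trans (Nat.le_of_dvd hk0 hqk))
    have h4 : ((p : ℝ)) ^ 2 * (N : ℝ) ^ zExp ≤ 5 * (N : ℝ) ^ 2 := by
      have h5 : ((p : ℝ)) ^ 2 * z ≤ (n : ℝ) ^ 2 + (g : ℝ) ^ 2 := by exact_mod_cast h3
      have h55 : (g : ℝ) ^ 2 ≤ N := by exact_mod_cast hg2
      have h6 : (n : ℝ) ≤ 2 * N := by exact_mod_cast hnI.2
      have h7 : ((p : ℝ)) ^ 2 * (N : ℝ) ^ zExp ≤ ((p : ℝ)) ^ 2 * z :=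
        mul_le_mul_of_nonneg_left hzr (by positivity)
      nlinarith [Nat.cast_nonneg (α := ℝ) n]
    have h8 : A ^ 2 * (N : ℝ) ^ zExp = (N : ℝ) ^ 2 := by
      rw [hA, ← Real.rpow_natCast ((N : ℝ) ^ ((71 : ℝ) / 80)) 2, ← Real.rpow_mul hN0.le,
        ← Real.rpow_add hN0, ← Real.rpow_natCast (N : ℝ) 2]
      congr 1
      unfold zExp
      norm_num
    have hzpos : 0 < (N : ℝ) ^ zExp := Real.rpow_pos_of_pos hN0 _
    have h9 : (p : ℝ) ^ 2 ≤ 5 * A ^ 2 := by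
      have : (p : ℝ) ^ 2 * (N : ℝ) ^ zExp ≤ (5 * A ^ 2) * (N : ℝ) ^ zExp := by
        rw [mul_assoc, h8]; exact h4
      exact le_of_mul_le_mul_right this hzpos
    have h10 : (p : ℝ) ≤ 3 * A := by
      apply le_of_sq_le_sq _ (by positivity)
      nlinarith
    have h11 : p ≤ ⌊3 * A⌋₊ := Nat.le_floor h10
    omega
  have hc1 := Finset.card_le_card hcover
  have hc2 := hc1.trans Finset.card_biUnion_le
  have hc3 : (#((Ioc N (2 * N)).filter (fun n => BadK N g n)) : ℝ)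
      ≤ ∑ p ∈ (Ico z Y).filter Nat.Prime,
        (#((Ioc N (2 * N)).filter (fun n => p ^ 2 ∣ n ^ 2 + g ^ 2)) : ℝ) := by exact_mod_cast hc2
  refine hc3.trans ?_
  have hc4 : ∑ p ∈ (Ico z Y).filter Nat.Prime,
        (#((Ioc N (2 * N)).filter (fun n => p ^ 2 ∣ n ^ 2 + g ^ 2)) : ℝ)
      ≤ ∑ p ∈ Ico z Y, (2 * (N : ℝ) * ((p : ℝ) ^ 2)⁻¹ + 2) := by
    rw [Finset.sum_filter]
    refine Finset.sum_le_sum fun p hp => ?_
    rw [Finset.mem_Ico] at hp
    split_ifs with hpp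
    · refine (nsq_primeK N g p hg (by omega) hpp (by omega)).trans (le_of_eq ?_)
      push_cast
      ring
    · positivity
  refine hc4.trans ?_
  rw [Finset.sum_add_distrib, ← Finset.mul_sum, Finset.sum_const, nsmul_eq_mul]
  have hIoo : Ico z Y = Ioo (z - 1) Y := by
    ext x
    rw [Finset.mem_Ico, Finset.mem_Ioo]
    omega
  have hs1 : ∑ p ∈ Ico z Y, ((p : ℝ) ^ 2)⁻¹ ≤ 2 / z := by
    rw [hIoo]
    have := sum_Ioo_inv_sq_le (α := ℝ) (z - 1) Y
    have e : ((z - 1 : ℕ) : ℝ) + 1 = z := by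
      rw [Nat.cast_sub (by omega)]; push_cast; ring
    rwa [e] at this
  have hs2 : (#(Ico z Y) : ℝ) ≤ 3 * A := by
    rw [Nat.card_Ico]
    have h1 : Y - z ≤ ⌊3 * A⌋₊ := by omega
    have h2 : ((Y - z : ℕ) : ℝ) ≤ (⌊3 * A⌋₊ : ℝ) := by exact_mod_cast h1
    exact h2.trans (Nat.floor_le (by positivity))
  have hzpos : 0 < (N : ℝ) ^ zExp := Real.rpow_pos_of_pos hN0 _
  have hs3 : 2 * (N : ℝ) * (2 / z) ≤ 4 * A := by
    have h1 : 2 / (z : ℝ) ≤ 2 / (N : ℝ) ^ zExp :=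
      div_le_div_of_nonneg_left (by norm_num) hzpos hzr
    have h2 : (N : ℝ) ≤ A * (N : ℝ) ^ zExp := by
      rw [hA, ← Real.rpow_add hN0]
      calc (N : ℝ) = (N : ℝ) ^ (1 : ℝ) := (Real.rpow_one _).symm
        _ ≤ _ := Real.rpow_le_rpow_of_exponent_le hN1 (by unfold zExp; norm_num)
    calc 2 * (N : ℝ) * (2 / z) ≤ 2 * (N : ℝ) * (2 / (N : ℝ) ^ zExp) := by gcongr
      _ = 4 * (N : ℝ) / (N : ℝ) ^ zExp := by ring
      _ ≤ 4 * A := by
        rw [div_le_iff₀ hzpos]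
        nlinarith
  have hs4 : 12 * A ≤ (N : ℝ) ^ ((19 : ℝ) / 20) := by
    have h1 : (N : ℝ) ^ ((19 : ℝ) / 20) = (N : ℝ) ^ ((1 : ℝ) / 16) * A := by
      rw [hA, ← Real.rpow_add hN0]; norm_num
    rw [h1]
    exact mul_le_mul_of_nonneg_right h12 (by positivity)
  have hs5 : 2 * (N : ℝ) * ∑ p ∈ Ico z Y, ((p : ℝ) ^ 2)⁻¹ ≤ 2 * (N : ℝ) * (2 / z) :=
    mul_le_mul_of_nonneg_left hs1 (by positivity)
  linarith


end Pool.Agent.Work.MP_73869e_nt.SK
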