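import Mathlib
import Pool.Agent.Work.MP_2dba45_nt.Sv.Mert1
import Pool.Agent.Work.MP_2dba45_nt.VV

set_option autoImplicit false

/-! Local densities of `n ^ 2 + g ^ 2`. -/

namespace Pool.Agent.Work.MP_73869e_nt.SK

open Finset Pool.Agent.Work.MP_2dba45_nt.Nu Pool.Agent.Work.MP_2dba45_nt.VV
  Pool.Agent.Work.MP_2dba45_nt.Psum

/-- local density of `n ^ 2 + g ^ 2` -/
noncomputable def gK (g p : ℕ) : ℝ := (nu (g ^ 2) p : ℝ) / p

theorem nu_dvd {g p : ℕ} (hp : p.Prime) (h : p ∣ g) : nu (g ^ 2) p = 1 := by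
  unfold nu
  have : (range p).filter (fun x => p ∣ x ^ 2 + g ^ 2) = {0} := by
    ext x
    rw [mem_filter, mem_range, mem_singleton]
    constructor
    · rintro ⟨h1, h2⟩
      have h3 : p ∣ x ^ 2 := (Nat.dvd_add_left (dvd_pow h two_ne_zero)).1 h2
      have h4 : p ∣ x := hp.dvd_of_dvd_pow h3
      exact Nat.eq_zero_of_dvd_of_lt h4 h1
    · rintro rfl
      refine ⟨hp.pos, ?_⟩
      rw [zero_pow two_ne_zero, zero_add]
      exact dvd_pow h two_ne_zero
  rw [this, card_singleton]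

theorem nu_not_dvd {g p : ℕ} (hp : p.Prime) (h : ¬ p ∣ g) : nu (g ^ 2) p = nu 1 p := by
  haveI : Fact p.Prime := ⟨hp⟩
  have hg : (g : ZMod p) ≠ 0 := by
    rw [Ne, ZMod.natCast_eq_zero_iff]
    exact h
  rw [nu_eq_card, nu_eq_card]
  symm
  refine Finset.card_nbij' (fun x : ZMod p => g * x) (fun x : ZMod p => (g : ZMod p)⁻¹ * x) ?_ ?_ ?_ ?_
  · intro x hx
    simp only [Finset.coe_filter, Finset.mem_univ, true_and, Set.mem_setOf_eq] at hx ⊢
    push_cast at hx ⊢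
    linear_combination (g : ZMod p) ^ 2 * hx
  · intro x hx
    simp only [Finset.coe_filter, Finset.mem_univ, true_and, Set.mem_setOf_eq] at hx ⊢
    push_cast at hx ⊢
    have h1 : (g : ZMod p)⁻¹ * g = 1 := inv_mul_cancel₀ hg
    linear_combination ((g : ZMod p)⁻¹) ^ 2 * hx - ((g : ZMod p)⁻¹ * g + 1) * h1
  · intro x _
    show (g : ZMod p)⁻¹ * (g * x) = x
    rw [← mul_assoc, inv_mul_cancel₀ hg, one_mul]
  · intro x _
    show (g : ZMod p) * ((g : ZMod p)⁻¹ * x) = x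
    rw [← mul_assoc, mul_inv_cancel₀ hg, one_mul]

theorem gK_nonneg (g p : ℕ) : 0 ≤ gK g p := by unfold gK; positivity

theorem gK_le (g p : ℕ) (hp : p.Prime) : gK g p ≤ 2 / p := by
  unfold gK
  have h1 : (nu (g ^ 2) p : ℝ) ≤ 2 := by exact_mod_cast nu_le (g ^ 2) p hp
  have hp0 : (0 : ℝ) < p := by exact_mod_cast hp.pos
  gcongr

theorem nu_one_two : nu 1 2 = 1 := by decide
theorem nu_one_three : nu 1 3 = 0 := by decide

theorem gK_le_half (g p : ℕ) (hp : p.Prime) : gK g p ≤ 1 / 2 := by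
  unfold gK
  have hp0 : (0 : ℝ) < p := by exact_mod_cast hp.pos
  rcases Nat.lt_or_ge p 4 with h | h
  · have h2 := hp.two_le
    interval_cases p
    · by_cases hg : 2 ∣ g
      · rw [nu_dvd hp hg]; norm_num
      · rw [nu_not_dvd hp hg, nu_one_two]; norm_num
    · by_cases hg : 3 ∣ g
      · rw [nu_dvd hp hg]; norm_num
      · rw [nu_not_dvd hp hg, nu_one_three]; norm_num
  · have h1 : (nu (g ^ 2) p : ℝ) ≤ 2 := by exact_mod_cast nu_le (g ^ 2) p hp
    have h2 : (4 : ℝ) ≤ p := by exact_mod_cast h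
    rw [div_le_iff₀ hp0]
    linarith

theorem g1_le_half (p : ℕ) (hp : p.Prime) : (nu 1 p : ℝ) / p ≤ 1 / 2 := by
  have h := gK_le_half 1 p hp
  unfold gK at h
  rwa [one_pow] at h

/-- reciprocals of the primes in a block -/
theorem block_one : ∃ L₀ : ℝ, 0 ≤ L₀ ∧ ∀ (z : ℕ) (y : ℝ), 1 ≤ y →
    ∑ p ∈ (PP z).filter (fun p : ℕ => y ≤ (p : ℝ) ∧ (p : ℝ) < y ^ 2), 1 / (p : ℝ) ≤ L₀ := by
  obtain ⟨C, hC0, hC⟩ := psum_one
  refine ⟨C + Real.log 4 + 9, by have := Real.log_nonneg (x := 4) (by norm_num); linarith,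
    fun z y hy => ?_⟩
  have hlog4 : 0 ≤ Real.log 4 := Real.log_nonneg (by norm_num)
  rcases lt_or_ge y 3 with hy3 | hy3
  · have hsub : (PP z).filter (fun p : ℕ => y ≤ (p : ℝ) ∧ (p : ℝ) < y ^ 2)
        ⊆ Finset.Icc 1 9 := by
      intro p hp
      rw [Finset.mem_filter, mem_PP] at hp
      rw [Finset.mem_Icc]
      refine ⟨hp.1.2.pos, ?_⟩
      have h1 : (p : ℝ) < 9 := by nlinarith [hp.2.2]
      exact_mod_cast h1.le
    have h1 : ∑ p ∈ (PP z).filter (fun p : ℕ => y ≤ (p : ℝ) ∧ (p : ℝ) < y ^ 2), 1 / (p : ℝ)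
        ≤ ∑ p ∈ (PP z).filter (fun p : ℕ => y ≤ (p : ℝ) ∧ (p : ℝ) < y ^ 2), (1 : ℝ) := by
      refine Finset.sum_le_sum fun p hp => ?_
      rw [Finset.mem_filter, mem_PP] at hp
      have : (1 : ℝ) ≤ p := by exact_mod_cast hp.1.2.one_le
      rw [div_le_one (by linarith)]
      exact this
    refine h1.trans ?_
    rw [Finset.sum_const, nsmul_eq_mul]
    have h2 := Finset.card_le_card hsub
    rw [Nat.card_Icc] at h2
    have h3 : ((#((PP z).filter (fun p : ℕ => y ≤ (p : ℝ) ∧ (p : ℝ) < y ^ 2)) : ℕ) : ℝ)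
        ≤ 9 := by exact_mod_cast h2
    linarith
  · set W := ⌈y⌉₊ - 1 with hW
    set X := ⌈y ^ 2⌉₊ with hX
    have hy0 : (0 : ℝ) ≤ y := by linarith
    have hceil : 3 ≤ ⌈y⌉₊ := by
      have : (3 : ℝ) ≤ ⌈y⌉₊ := hy3.trans (Nat.le_ceil y)
      exact_mod_cast this
    have hW2 : 2 ≤ W := by omega
    have hWX : W ≤ X := by
      have h1 : ⌈y⌉₊ ≤ ⌈y ^ 2⌉₊ := Nat.ceil_mono (by nlinarith)
      omega
    have hsub : (PP z).filter (fun p : ℕ => y ≤ (p : ℝ) ∧ (p : ℝ) < y ^ 2)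
        ⊆ (Ioc W X).filter Nat.Prime := by
      intro p hp
      rw [Finset.mem_filter, mem_PP] at hp
      rw [Finset.mem_filter, Finset.mem_Ioc]
      refine ⟨⟨?_, ?_⟩, hp.1.2⟩
      · have : ⌈y⌉₊ ≤ p := Nat.ceil_le.2 hp.2.1
        omega
      · have h1 : (p : ℝ) ≤ X := hp.2.2.le.trans (Nat.le_ceil _)
        exact_mod_cast h1
    have h1 := (abs_le.1 (hC W X hW2 hWX)).2
    have h2 : ∑ p ∈ (PP z).filter (fun p : ℕ => y ≤ (p : ℝ) ∧ (p : ℝ) < y ^ 2), 1 / (p : ℝ)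
        ≤ ∑ p ∈ (Ioc W X).filter Nat.Prime, 1 / (p : ℝ) :=
      Finset.sum_le_sum_of_subset_of_nonneg hsub fun p _ _ => by positivity
    -- log log X - log log W ≤ log 4
    have hWr : y - 1 ≤ W := by
      have h3 : ((W + 1 : ℕ) : ℝ) = ⌈y⌉₊ := by
        congr 1
        omega
      have h4 := Nat.le_ceil y
      push_cast at h3
      linarith
    have hXr : (X : ℝ) ≤ (y - 1) ^ 4 := by
      have h3 : (X : ℝ) ≤ y ^ 2 + 1 := (Nat.ceil_lt_add_one (by positivity)).le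
      have h4 : (2 : ℝ) ≤ y - 1 := by linarith
      have h5 : y ^ 2 + 1 ≤ (y - 1) ^ 4 := by
        have e : y = (y - 1) + 1 := by ring
        set t := y - 1
        rw [e]
        nlinarith [mul_nonneg (sub_nonneg.2 h4) (sub_nonneg.2 h4), pow_pos (by linarith : 0 < t) 2,
          pow_pos (by linarith : 0 < t) 3]
      linarith
    have hXW : (X : ℝ) ≤ (W : ℝ) ^ 4 :=
      hXr.trans (pow_le_pow_left₀ (by linarith) hWr 4)
    have hWpos : (2 : ℝ) ≤ W := by exact_mod_cast hW2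
    have hXpos : (2 : ℝ) ≤ X := by exact_mod_cast (hW2.trans hWX)
    have hlW : 0 < Real.log W := Real.log_pos (by linarith)
    have hlX : 0 < Real.log X := Real.log_pos (by linarith)
    have h3 : Real.log X ≤ 4 * Real.log W := by
      have := Real.log_le_log (by linarith) hXW
      rw [Real.log_pow] at this
      push_cast at this
      exact this
    have h4 : Real.log (Real.log X) ≤ Real.log 4 + Real.log (Real.log W) := by
      rw [← Real.log_mul (by norm_num) hlW.ne']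
      exact Real.log_le_log hlX h3
    linarith

theorem gK_block : ∃ L₀ : ℝ, 0 ≤ L₀ ∧ ∀ (g z : ℕ) (y : ℝ), 1 ≤ y →
    ∑ p ∈ (PP z).filter (fun p : ℕ => y ≤ (p : ℝ) ∧ (p : ℝ) < y ^ 2), gK g p ≤ L₀ := by
  obtain ⟨L, hL0, hL⟩ := block_one
  refine ⟨2 * L, by linarith, fun g z y hy => ?_⟩
  have h := hL z y hy
  calc ∑ p ∈ (PP z).filter (fun p : ℕ => y ≤ (p : ℝ) ∧ (p : ℝ) < y ^ 2), gK g p
      ≤ ∑ p ∈ (PP z).filter (fun p : ℕ => y ≤ (p : ℝ) ∧ (p : ℝ) < y ^ 2), 2 * (1 / (p : ℝ)) := by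
        refine Finset.sum_le_sum fun p hp => ?_
        rw [Finset.mem_filter, mem_PP] at hp
        refine (gK_le g p hp.1.2).trans (le_of_eq ?_)
        ring
    _ ≤ 2 * L := by
        rw [← Finset.mul_sum]
        linarith

/-- the main product for `n ^ 2 + 1` -/
theorem V1_ge : ∃ c : ℝ, 0 < c ∧ ∀ z : ℕ, 2 ≤ z →
    c / Real.log z ≤ ∏ p ∈ PP z, (1 - (nu 1 p : ℝ) / p) := by
  obtain ⟨C, hC0, hC⟩ := psum_nu
  set L := Real.log (Real.log 2) with hL
  refine ⟨Real.exp (-(17 + C) + L), Real.exp_pos _, fun z hz => ?_⟩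
  have hlz : Real.log 2 ≤ Real.log z := Real.log_le_log (by norm_num) (by exact_mod_cast hz)
  have hl2 : 0 < Real.log 2 := Real.log_pos (by norm_num)
  have hlz0 : 0 < Real.log z := by linarith
  have hll : L ≤ Real.log (Real.log z) := Real.log_le_log hl2 hlz
  have hsum : ∑ p ∈ PP z, (nu 1 p : ℝ) / p ≤ 1 + (Real.log (Real.log z) - L + C) := by
    have hsub : PP z ⊆ insert 2 ((Ioc 2 z).filter Nat.Prime) := by
      intro p hp
      rw [mem_PP] at hp
      rw [Finset.mem_insert, Finset.mem_filter, Finset.mem_Ioc]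
      have := hp.2.two_le
      rcases Nat.eq_or_lt_of_le this with h | h
      · exact Or.inl h.symm
      · exact Or.inr ⟨⟨h, by omega⟩, hp.2⟩
    have h1 := (abs_le.1 (hC 1 (Or.inl rfl) 2 z (le_refl _) hz)).2
    calc ∑ p ∈ PP z, (nu 1 p : ℝ) / p ≤ ∑ p ∈ insert 2 ((Ioc 2 z).filter Nat.Prime),
          (nu 1 p : ℝ) / p :=
          Finset.sum_le_sum_of_subset_of_nonneg hsub (fun p _ _ => by positivity)
      _ = (nu 1 2 : ℝ) / (2 : ℕ) + ∑ p ∈ (Ioc 2 z).filter Nat.Prime, (nu 1 p : ℝ) / p := by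
          rw [Finset.sum_insert (by simp)]
      _ ≤ _ := by
          have h2 : (nu 1 2 : ℝ) / (2 : ℕ) ≤ 1 := by rw [nu_one_two]; norm_num
          push_cast at h1
          linarith
  have hprod := prod_ge (PP z) (fun n hn => (mem_PP.1 hn).2.one_lt.le) (fun p => (nu 1 p : ℝ) / p)
    (fun p _ => by positivity) (fun p hp => g1_le_half p (mem_PP.1 hp).2) 2 (by norm_num)
    (fun p hp => by
      have h1 : (nu 1 p : ℝ) ≤ 2 := by exact_mod_cast nu_le 1 p (mem_PP.1 hp).2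
      have hp0 : (0 : ℝ) < p := by exact_mod_cast (mem_PP.1 hp).2.pos
      show (nu 1 p : ℝ) / p ≤ 2 / p
      gcongr)
  refine le_trans ?_ hprod
  rw [div_le_iff₀ (by positivity)]
  have e2 : Real.exp (-∑ p ∈ PP z, (nu 1 p : ℝ) / p - 4 * 2 ^ 2) * Real.log z =
      Real.exp (-∑ p ∈ PP z, (nu 1 p : ℝ) / p - 4 * 2 ^ 2 + Real.log (Real.log z)) := by
    rw [Real.exp_add, Real.exp_log hlz0]
  rw [e2]
  apply Real.exp_le_exp.2
  linarith

theorem totient_div (g : ℕ) (hg : 0 < g) :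
    (g.totient : ℝ) / g = ∏ p ∈ g.primeFactors, (1 - 1 / (p : ℝ)) := by
  have h := Nat.totient_eq_mul_prod_factors g
  have h1 : ((g.totient : ℚ) : ℝ) = ((g * ∏ p ∈ g.primeFactors, (1 - (p : ℚ)⁻¹) : ℚ) : ℝ) := by
    rw [h]
  push_cast at h1
  have hg0 : (g : ℝ) ≠ 0 := by exact_mod_cast hg.ne'
  rw [h1, mul_comm, mul_div_assoc, div_self hg0, mul_one]
  refine Finset.prod_congr rfl fun p _ => ?_
  rw [one_div]

theorem VK_ge : ∃ c : ℝ, 0 < c ∧ ∀ g z : ℕ, 1 ≤ g → 2 ≤ z →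
    c / Real.log z * ((g.totient : ℝ) / g) ≤ ∏ p ∈ PP z, (1 - gK g p) := by
  obtain ⟨c, hc, h⟩ := V1_ge
  refine ⟨c, hc, fun g z hg hz => ?_⟩
  have h1 := h z hz
  have hpos1 : ∀ p ∈ PP z, 0 < 1 - (nu 1 p : ℝ) / p := fun p hp => by
    linarith [g1_le_half p (mem_PP.1 hp).2]
  have hp1 : ∀ p : ℕ, p.Prime → 0 ≤ 1 - 1 / (p : ℝ) := by
    intro p hp
    have : (1 : ℝ) ≤ p := by exact_mod_cast hp.one_le
    have : 1 / (p : ℝ) ≤ 1 := by rw [div_le_one (by linarith)]; exact this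
    linarith
  have hp2 : ∀ p : ℕ, 1 - 1 / (p : ℝ) ≤ 1 := by
    intro p
    have : 0 ≤ 1 / (p : ℝ) := by positivity
    linarith
  calc c / Real.log z * ((g.totient : ℝ) / g)
      ≤ (∏ p ∈ PP z, (1 - (nu 1 p : ℝ) / p)) * ((g.totient : ℝ) / g) := by
        apply mul_le_mul_of_nonneg_right h1
        positivity
    _ = (∏ p ∈ PP z, (1 - (nu 1 p : ℝ) / p)) * ∏ p ∈ g.primeFactors, (1 - 1 / (p : ℝ)) := by
        rw [totient_div g hg]
    _ ≤ (∏ p ∈ PP z, (1 - (nu 1 p : ℝ) / p)) * ∏ p ∈ PP z, (if p ∣ g then 1 - 1 / (p : ℝ) else 1) := by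
        apply mul_le_mul_of_nonneg_left _ (Finset.prod_nonneg fun p hp => (hpos1 p hp).le)
        rw [Finset.prod_ite, Finset.prod_const_one, mul_one]
        have hsub : (PP z).filter (fun p => p ∣ g) ⊆ g.primeFactors := by
          intro p hp
          rw [Finset.mem_filter, mem_PP] at hp
          rw [Nat.mem_primeFactors]
          exact ⟨hp.1.2, hp.2, by omega⟩
        rw [← Finset.prod_sdiff hsub]
        have h2 : ∏ p ∈ g.primeFactors \ (PP z).filter (fun p => p ∣ g), (1 - 1 / (p : ℝ)) ≤ 1 :=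
          Finset.prod_le_one (fun p hp => hp1 p (Nat.prime_of_mem_primeFactors
            (Finset.mem_sdiff.1 hp).1)) (fun p _ => hp2 p)
        have h3 : 0 ≤ ∏ p ∈ (PP z).filter (fun p => p ∣ g), (1 - 1 / (p : ℝ)) :=
          Finset.prod_nonneg fun p hp => hp1 p (mem_PP.1 (Finset.mem_filter.1 hp).1).2
        calc _ ≤ 1 * ∏ p ∈ (PP z).filter (fun p => p ∣ g), (1 - 1 / (p : ℝ)) :=
              mul_le_mul_of_nonneg_right h2 h3
          _ = _ := one_mul _
    _ = ∏ p ∈ PP z, ((1 - (nu 1 p : ℝ) / p) * (if p ∣ g then 1 - 1 / (p : ℝ) else 1)) := by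
        rw [Finset.prod_mul_distrib]
    _ ≤ ∏ p ∈ PP z, (1 - gK g p) := by
        apply Finset.prod_le_prod
        · intro p hp
          apply mul_nonneg (hpos1 p hp).le
          split_ifs
          · exact hp1 p (mem_PP.1 hp).2
          · norm_num
        · intro p hp
          have hpp := (mem_PP.1 hp).2
          unfold gK
          split_ifs with hd
          · rw [nu_dvd hpp hd, Nat.cast_one]
            have h4 : (1 : ℝ) - (nu 1 p : ℝ) / p ≤ 1 := by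
              have : (0 : ℝ) ≤ (nu 1 p : ℝ) / p := by positivity
              linarith
            calc _ ≤ 1 * (1 - 1 / (p : ℝ)) := mul_le_mul_of_nonneg_right h4 (hp1 p hpp)
              _ = _ := one_mul _
          · rw [nu_not_dvd hpp hd, mul_one]

end Pool.Agent.Work.MP_73869e_nt.SK
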