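import Mathlib
import Pool.Agent.Work.MP_2dba45_nt.Sv.RemTot

set_option autoImplicit false

namespace Pool.Agent.Work.MP_73869e_nt.SK

open Finset Pool.Agent.Work.MP_2dba45_nt.BilDef Pool.Agent.Work.MP_2dba45_nt.Sv

theorem type_boundA (R : ℕ → ℝ) (r : ℕ) (P : Finset ℕ) (a : ℕ → ℕ) (hP : ∀ p ∈ P, p.Prime)
    (hcop : ∀ p ∈ P, p.Coprime (2 * r)) (μ₁ μ₂ : Multiset ℕ) (M Q E : ℝ)
    (hM : ∀ T ⊆ P, T.val.map a = μ₁ → ((∏ p ∈ T, p : ℕ) : ℝ) ≤ M)
    (hQ : ∀ T ⊆ P, T.val.map a = μ₂ → ((∏ p ∈ T, p : ℕ) : ℝ) ≤ Q)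
    (hb : ∀ b : ℕ → ℝ, (∀ q, |b q| ≤ 1) →
      ∑ m ∈ (Icc 1 ⌊M⌋₊).filter (fun m => m.Coprime r),
        |∑ q ∈ (Icc 1 ⌊Q⌋₊).filter (fun q => Squarefree q ∧ q.Coprime (2 * m * r)),
          b q * R (m * q)| ≤ E) :
    |∑ T ∈ P.powerset.filter (fun T => T.val.map a = μ₁ + μ₂), R (∏ p ∈ T, p)| ≤ E := by
  classical
  set F₁ : Finset (Finset ℕ) := P.powerset.filter (fun T => T.val.map a = μ₁) with hF₁
  set F₂ : Finset (Finset ℕ) := P.powerset.filter (fun T => T.val.map a = μ₂) with hF₂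
  have hm₁ : ∀ T, T ∈ F₁ ↔ T ⊆ P ∧ T.val.map a = μ₁ := by
    intro T; rw [hF₁, Finset.mem_filter, Finset.mem_powerset]
  have hm₂ : ∀ T, T ∈ F₂ ↔ T ⊆ P ∧ T.val.map a = μ₂ := by
    intro T; rw [hF₂, Finset.mem_filter, Finset.mem_powerset]
  set b : ℕ → ℝ := fun q => if q ∈ F₂.image (fun T => ∏ p ∈ T, p) then 1 else 0 with hbdef
  have hb1 : ∀ q, |b q| ≤ 1 := by
    intro q
    simp only [hbdef]
    split_ifs <;> simp
  have hE := hb b hb1
  have hpos : ∀ T ⊆ P, 1 ≤ ∏ p ∈ T, p := by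
    intro T hT
    exact Nat.one_le_iff_ne_zero.2 (Finset.prod_ne_zero_iff.2 fun p hp => (hP p (hT hp)).ne_zero)
  -- the inner sums
  have hin : ∀ T₁ ∈ F₁, ∑ T₂ ∈ F₂.filter (fun T₂ => Disjoint T₁ T₂),
      R (∏ p ∈ T₁ ∪ T₂, p) =
      ∑ q ∈ (Icc 1 ⌊Q⌋₊).filter (fun q => Squarefree q ∧ q.Coprime (2 * (∏ p ∈ T₁, p) * r)),
          b q * R ((∏ p ∈ T₁, p) * q) := by
    intro T₁ hT₁
    obtain ⟨hT₁P, hT₁a⟩ := (hm₁ T₁).1 hT₁
    have h1 : ∑ q ∈ (Icc 1 ⌊Q⌋₊).filter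
          (fun q => Squarefree q ∧ q.Coprime (2 * (∏ p ∈ T₁, p) * r)),
          b q * R ((∏ p ∈ T₁, p) * q) =
        ∑ q ∈ (F₂.filter (fun T₂ => Disjoint T₁ T₂)).image (fun T => ∏ p ∈ T, p),
          b q * R ((∏ p ∈ T₁, p) * q) := by
      symm
      refine Finset.sum_subset ?_ ?_
      · intro q hq
        obtain ⟨T₂, hT₂, rfl⟩ := Finset.mem_image.1 hq
        obtain ⟨hT₂, hd⟩ := Finset.mem_filter.1 hT₂
        obtain ⟨hT₂P, hT₂a⟩ := (hm₂ T₂).1 hT₂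
        refine Finset.mem_filter.2 ⟨Finset.mem_Icc.2 ⟨hpos T₂ hT₂P, Nat.le_floor (hQ T₂ hT₂P hT₂a)⟩,
          typeb_sqf fun p hp => hP p (hT₂P hp), ?_⟩
        have e : 2 * (∏ p ∈ T₁, p) * r = (∏ p ∈ T₁, p) * (2 * r) := by ring
        rw [e]
        refine Nat.Coprime.mul_right ?_ ?_
        · exact (typeb_disj (fun p hp => hP p (hT₁P hp)) (fun p hp => hP p (hT₂P hp))).2 hd
        · exact typeb_cop.2 fun p hp => hcop p (hT₂P hp)
      · intro q hq hq'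
        have : b q = 0 := by
          simp only [hbdef]
          rw [if_neg]
          intro hq2
          obtain ⟨T₂, hT₂, rfl⟩ := Finset.mem_image.1 hq2
          obtain ⟨hT₂P, hT₂a⟩ := (hm₂ T₂).1 hT₂
          apply hq'
          refine Finset.mem_image_of_mem _ (Finset.mem_filter.2 ⟨hT₂, ?_⟩)
          have h2 := (Finset.mem_filter.1 hq).2.2
          have e : 2 * (∏ p ∈ T₁, p) * r = (∏ p ∈ T₁, p) * (2 * r) := by ring
          rw [e] at h2
          exact (typeb_disj (fun p hp => hP p (hT₁P hp)) (fun p hp => hP p (hT₂P hp))).1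
            (Nat.Coprime.coprime_mul_right_right h2)
        rw [this, zero_mul]
    rw [h1, Finset.sum_image]
    · refine Finset.sum_congr rfl fun T₂ hT₂ => ?_
      obtain ⟨hT₂, hd⟩ := Finset.mem_filter.1 hT₂
      have hb2 : b (∏ p ∈ T₂, p) = 1 := by
        simp only [hbdef]
        rw [if_pos (Finset.mem_image_of_mem _ hT₂)]
      rw [hb2, one_mul, Finset.prod_union hd]
    · intro S hS T hT h
      have hS' := ((hm₂ S).1 (Finset.mem_filter.1 (Finset.mem_coe.1 hS)).1).1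
      have hT' := ((hm₂ T).1 (Finset.mem_filter.1 (Finset.mem_coe.1 hT)).1).1
      exact typeb_inj (fun p hp => hP p (hS' hp)) (fun p hp => hP p (hT' hp)) h
  have hpairs := typeb_pairs (P := P) (a := a) (μ₁ := μ₁) (μ₂ := μ₂)
    (fun T => R (∏ p ∈ T, p))
  rw [← hF₁, ← hF₂, Finset.sum_congr rfl hin] at hpairs
  have hκ : (1 : ℝ) ≤ ((μ₁ + μ₂).powerset.count μ₁ : ℝ) := by
    have : 0 < (μ₁ + μ₂).powerset.count μ₁ := by
      rw [Multiset.count_pos, Multiset.mem_powerset]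
      exact Multiset.le_add_right _ _
    exact_mod_cast this
  -- the outer sum
  have hout : ∑ T₁ ∈ F₁, |∑ q ∈ (Icc 1 ⌊Q⌋₊).filter
        (fun q => Squarefree q ∧ q.Coprime (2 * (∏ p ∈ T₁, p) * r)),
          b q * R ((∏ p ∈ T₁, p) * q)| ≤
      ∑ m ∈ (Icc 1 ⌊M⌋₊).filter (fun m => m.Coprime r),
        |∑ q ∈ (Icc 1 ⌊Q⌋₊).filter (fun q => Squarefree q ∧ q.Coprime (2 * m * r)),
          b q * R (m * q)| := by
    have h1 : ∑ T₁ ∈ F₁, |∑ q ∈ (Icc 1 ⌊Q⌋₊).filter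
        (fun q => Squarefree q ∧ q.Coprime (2 * (∏ p ∈ T₁, p) * r)),
          b q * R ((∏ p ∈ T₁, p) * q)| =
        ∑ m ∈ F₁.image (fun T => ∏ p ∈ T, p),
        |∑ q ∈ (Icc 1 ⌊Q⌋₊).filter (fun q => Squarefree q ∧ q.Coprime (2 * m * r)),
          b q * R (m * q)| := by
      rw [Finset.sum_image]
      intro S hS T hT h
      have hS' := ((hm₁ S).1 (Finset.mem_coe.1 hS)).1
      have hT' := ((hm₁ T).1 (Finset.mem_coe.1 hT)).1
      exact typeb_inj (fun p hp => hP p (hS' hp)) (fun p hp => hP p (hT' hp)) h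
    rw [h1]
    refine Finset.sum_le_sum_of_subset_of_nonneg ?_ (fun _ _ _ => abs_nonneg _)
    intro m hm
    obtain ⟨T₁, hT₁, rfl⟩ := Finset.mem_image.1 hm
    obtain ⟨hT₁P, hT₁a⟩ := (hm₁ T₁).1 hT₁
    refine Finset.mem_filter.2 ⟨Finset.mem_Icc.2 ⟨hpos T₁ hT₁P, Nat.le_floor (hM T₁ hT₁P hT₁a)⟩, ?_⟩
    exact typeb_cop.2 fun p hp => Nat.Coprime.coprime_mul_left_right (hcop p (hT₁P hp))
  have hfin : ((μ₁ + μ₂).powerset.count μ₁ : ℝ) *
      |∑ T ∈ P.powerset.filter (fun T => T.val.map a = μ₁ + μ₂), R (∏ p ∈ T, p)| ≤ E := by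
    have h1 : (0 : ℝ) ≤ ((μ₁ + μ₂).powerset.count μ₁ : ℝ) := by positivity
    rw [← abs_of_nonneg h1, ← abs_mul, hpairs]
    exact (Finset.abs_sum_le_sum_abs _ _).trans (hout.trans hE)
  have habs := abs_nonneg
    (∑ T ∈ P.powerset.filter (fun T => T.val.map a = μ₁ + μ₂), R (∏ p ∈ T, p))
  nlinarith


private lemma split_phi (k : ℕ) (c : List ℕ) (hc : c.Pairwise (· ≥ ·))
    (h : phi (270 * k) (1199 * k) (1298 * k) (wt k) lamb c ≠ 0) :
    ∃ μ₁ μ₂ : Multiset ℕ, (c : Multiset ℕ) = μ₁ + μ₂ ∧ μ₁.sum ≤ 1199 * k ∧ μ₂.sum ≤ 99 * k := by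
  classical
  have hL : (((1199 * k + 99 * k : ℕ) : ℤ)) = 1298 * (k : ℤ) := by
    push_cast
    ring
  unfold phi at h
  split_ifs at h with h1 h2
  · refine split_false (1199 * k) (99 * k) c hc (by rw [hL]; exact h2) ?_
    intro x hx
    have := h1 x hx
    omega
  · exact absurd rfl h
  · cases c with
    | nil => exact absurd rfl h
    | cons x t =>
      simp only at h
      split_ifs at h with h3
      · exact split_true (1199 * k) (99 * k) x t (List.pairwise_cons.1 hc).2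
          (by rw [hL]; exact h3.2.2) h3.2.1
      · exact absurd rfl h

theorem rem_totalA : ∃ B : ℕ → ℝ, (∀ k, 0 ≤ B k) ∧ ∀ (k N r : ℕ) (P : Finset ℕ) (R : ℕ → ℝ) (E : ℝ),
    1 ≤ k → 2 ≤ N → (∀ p ∈ P, p.Prime ∧ p.Coprime (2 * r)) →
    (∀ b : ℕ → ℝ, (∀ q, |b q| ≤ 1) →
      ∑ m ∈ (Icc 1 ⌊(N : ℝ) ^ ((1199 : ℝ) / 1200)⌋₊).filter (fun m => m.Coprime r),
        |∑ q ∈ (Icc 1 ⌊(N : ℝ) ^ ((99 : ℝ) / 1200)⌋₊).filter
            (fun q => Squarefree q ∧ q.Coprime (2 * m * r)),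
          b q * R (m * q)| ≤ E) →
    |∑ T ∈ P.powerset, phi (270 * k) (1199 * k) (1298 * k) (wt k) lamb
        (costs (cost (1200 * k) N) T) * R (∏ p ∈ T, p)| ≤ B k * E ∧
    |∑ T ∈ P.powerset, |phi (270 * k) (1199 * k) (1298 * k) (wt k) lamb
        (costs (cost (1200 * k) N) T)| * R (∏ p ∈ T, p)| ≤ B k * E := by
  classical
  obtain ⟨B, hB, hts⟩ := type_sum
  refine ⟨fun k => 2 * B (1298 * k + 1199 * k), fun k => mul_nonneg (by norm_num) (hB _), ?_⟩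
  intro k N r P R E hk hN hP hb
  set a := cost (1200 * k) N with ha
  have hE : 0 ≤ E := by
    have h := hb (fun _ => 0) (fun q => by simp)
    simpa using h
  have h1 : ∀ p ∈ P, 1 ≤ a p := by
    intro p _
    rw [ha]
    unfold cost
    omega
  have hp1 : ∀ p ∈ P, 1 ≤ p := fun p hp => (hP p hp).1.one_le
  have h2 : ∀ p ∈ P, ∀ q ∈ P, p ≤ q → a p ≤ a q := fun p hp q _ hpq =>
    cost_mono (1200 * k) N p q hN (hp1 p hp) hpq
  have hK : 1 ≤ 1200 * k := by omega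
  have hk0 : (k : ℝ) ≠ 0 := by
    have : 0 < k := hk
    positivity
  have key : ∀ T ⊆ P, phi (270 * k) (1199 * k) (1298 * k) (wt k) lamb (costs a T) ≠ 0 →
      (T.val.map a).sum ≤ 1298 * k + 1199 * k ∧
      |∑ T' ∈ P.powerset.filter (fun T' => T'.val.map a = T.val.map a),
        R (∏ p ∈ T', p)| ≤ E := by
    intro T hT hne
    have hpw := costs_pairwise a T fun p hp q hq => h2 p (hT hp) q (hT hq)
    obtain ⟨μ₁, μ₂, hsum, hm, hq⟩ := split_phi k (costs a T) hpw hne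
    rw [costs_coe] at hsum
    constructor
    · rw [hsum, Multiset.sum_add]
      omega
    · rw [hsum]
      refine type_boundA R r P a (fun p hp => (hP p hp).1) (fun p hp => (hP p hp).2) μ₁ μ₂
        ((N : ℝ) ^ ((1199 : ℝ) / 1200)) ((N : ℝ) ^ ((99 : ℝ) / 1200)) E ?_ ?_ hb
      · intro U hU hmap
        have := prod_le_of_cost (1200 * k) N (1199 * k) hK hN U (fun p hp => hp1 p (hU hp))
          (by rw [← ha, hmap]; exact hm)
        refine this.trans (le_of_eq ?_)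
        congr 1
        push_cast
        rw [mul_div_mul_right _ _ hk0]
      · intro U hU hmap
        have := prod_le_of_cost (1200 * k) N (99 * k) hK hN U (fun p hp => hp1 p (hU hp))
          (by rw [← ha, hmap]; exact hq)
        refine this.trans (le_of_eq ?_)
        congr 1
        push_cast
        rw [mul_div_mul_right _ _ hk0]
  constructor
  · exact hts P a (phi (270 * k) (1199 * k) (1298 * k) (wt k) lamb)
      (fun T => R (∏ p ∈ T, p)) 2 E (1298 * k + 1199 * k) (by norm_num) hE h1 h2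
      (fun l => phi_bound k hk l) key
  · exact hts P a (fun l => |phi (270 * k) (1199 * k) (1298 * k) (wt k) lamb l|)
      (fun T => R (∏ p ∈ T, p)) 2 E (1298 * k + 1199 * k) (by norm_num) hE h1 h2
      (fun l => by rw [abs_abs]; exact phi_bound k hk l)
      (fun T hT hne => key T hT (abs_ne_zero.1 hne))

end Pool.Agent.Work.MP_73869e_nt.SK
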